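import Pool.Agent.Run7.h148.AX.Stm1
import Pool.Agent.H153R4.Pl

set_option autoImplicit false

open MeasureTheory Set Filter Topology
open scoped ENNReal ContDiff FourierTransform

namespace Run7.h237.AX

open Pool.Agent.Run7.h148.AX

/-- Plancherel inequality (piece FI2) -/
theorem t_FI2 : S_FI2 := by
  intro a ha h1
  by_cases h2 : (∫⁻ ξ, ‖a ξ‖ₑ ^ 2) = ⊤
  · rw [h2]; exact le_top
  have hint : Integrable a := ⟨ha.aestronglyMeasurable, h1⟩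
  have hmem : MemLp a 2 := by
    refine ⟨ha.aestronglyMeasurable, ?_⟩
    rw [eLpNorm_lt_top_iff_lintegral_rpow_enorm_lt_top (by norm_num) (by norm_num)]
    have : (∫⁻ ξ, ‖a ξ‖ₑ ^ (2 : ℝ≥0∞).toReal) = ∫⁻ ξ, ‖a ξ‖ₑ ^ 2 := by
      apply lintegral_congr
      intro ξ
      simp
    rw [this]
    exact lt_top_iff_ne_top.mpr h2
  have hp := Pool.Agent.H153R4.plancherel a hint hmem
  have e : (∫⁻ x, ‖𝓕⁻ a x‖ₑ ^ 2) = ∫⁻ x, ‖𝓕 a x‖ₑ ^ 2 := by
    have : ∀ x : E3, 𝓕⁻ a x = 𝓕 a (-x) := fun x => Real.fourierInv_eq_fourier_neg a x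
    simp_rw [this]
    exact lintegral_neg_eq_self (μ := (volume : Measure E3)) (fun x => ‖𝓕 a x‖ₑ ^ 2)
  rw [e, hp]

end Run7.h237.AX
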