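import Pool.Agent.Run7.h148.AX.Stm1

/-! Piece FI6: the nonlinearity in physical space. -/

set_option autoImplicit false

open MeasureTheory Set Filter Topology
open scoped ENNReal ContDiff FourierTransform Convolution

namespace Run7.h237.AX

open Pool.Agent.Run7.h148.AX

/-- all moments -/
def Mom (f : E3 → ℂ) : Prop := Measurable f ∧ ∀ k : ℕ, (∫⁻ ξ, wk k ξ * ‖f ξ‖ₑ) < ⊤

lemma wk_meas (k : ℕ) : Measurable (wk k) := by
  unfold wk
  exact ENNReal.measurable_ofReal.comp ((measurable_const.add measurable_norm).pow_const k)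

lemma one_le_wk (k : ℕ) (ξ : E3) : 1 ≤ wk k ξ := by
  unfold wk
  rw [← ENNReal.ofReal_one]
  apply ENNReal.ofReal_le_ofReal
  exact one_le_pow₀ (by linarith [norm_nonneg ξ])

lemma Mom.integrable {f : E3 → ℂ} (h : Mom f) : Integrable f := by
  refine ⟨h.1.aestronglyMeasurable, ?_⟩
  refine lt_of_le_of_lt ?_ (h.2 0)
  apply lintegral_mono
  intro ξ
  calc ‖f ξ‖ₑ = 1 * ‖f ξ‖ₑ := (one_mul _).symm
    _ ≤ wk 0 ξ * ‖f ξ‖ₑ := mul_le_mul_left (one_le_wk 0 ξ) _

lemma wk_sub (k : ℕ) (ξ η : E3) : wk k ξ ≤ wk k (ξ - η) * wk k η := by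
  unfold wk
  rw [← ENNReal.ofReal_mul (by positivity), ← mul_pow]
  apply ENNReal.ofReal_le_ofReal
  apply pow_le_pow_left₀ (by positivity)
  have h1 : ‖ξ‖ ≤ ‖ξ - η‖ + ‖η‖ := by
    calc ‖ξ‖ = ‖(ξ - η) + η‖ := by rw [sub_add_cancel]
      _ ≤ _ := norm_add_le _ _
  nlinarith [norm_nonneg (ξ - η), norm_nonneg η, mul_nonneg (norm_nonneg (ξ - η)) (norm_nonneg η)]

/-- convolution -/
noncomputable def cq (f g : E3 → ℂ) (ξ : E3) : ℂ := ∫ η, f (ξ - η) * g η

lemma cq_meas {f g : E3 → ℂ} (hf : Measurable f) (hg : Measurable g) : Measurable (cq f g) := by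
  unfold cq
  have : StronglyMeasurable (fun p : E3 × E3 => f (p.1 - p.2) * g p.2) :=
    ((hf.comp (measurable_fst.sub measurable_snd)).mul (hg.comp measurable_snd)).stronglyMeasurable
  exact this.integral_prod_right'.measurable

lemma cq_mom {f g : E3 → ℂ} (hf : Mom f) (hg : Mom g) : Mom (cq f g) := by
  refine ⟨cq_meas hf.1 hg.1, fun k => ?_⟩
  have hb : ∀ ξ, wk k ξ * ‖cq f g ξ‖ₑ ≤
      ∫⁻ η, (wk k (ξ - η) * ‖f (ξ - η)‖ₑ) * (wk k η * ‖g η‖ₑ) := by
    intro ξ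
    calc wk k ξ * ‖cq f g ξ‖ₑ ≤ wk k ξ * ∫⁻ η, ‖f (ξ - η) * g η‖ₑ := by
          gcongr
          exact enorm_integral_le_lintegral_enorm _
      _ = ∫⁻ η, wk k ξ * ‖f (ξ - η) * g η‖ₑ := by
          rw [lintegral_const_mul]
          exact ((hf.1.comp (measurable_const.sub measurable_id)).mul hg.1).enorm
      _ ≤ _ := by
          apply lintegral_mono
          intro η
          simp only
          rw [enorm_mul]
          calc wk k ξ * (‖f (ξ - η)‖ₑ * ‖g η‖ₑ)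
              ≤ (wk k (ξ - η) * wk k η) * (‖f (ξ - η)‖ₑ * ‖g η‖ₑ) := by
                gcongr
                exact wk_sub k ξ η
            _ = _ := by ring
  refine lt_of_le_of_lt (lintegral_mono hb) ?_
  rw [lintegral_lintegral_swap]
  · have : ∀ η : E3, (∫⁻ ξ, (wk k (ξ - η) * ‖f (ξ - η)‖ₑ) * (wk k η * ‖g η‖ₑ)) =
        (∫⁻ ξ, wk k ξ * ‖f ξ‖ₑ) * (wk k η * ‖g η‖ₑ) := by
      intro η
      have hmm : Measurable fun ξ : E3 => wk k (ξ - η) * ‖f (ξ - η)‖ₑ :=
        ((wk_meas k).comp (measurable_id.sub measurable_const)).mul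
          (hf.1.comp (measurable_id.sub measurable_const)).enorm
      rw [lintegral_mul_const _ hmm]
      congr 1
      exact lintegral_sub_right_eq_self (fun ξ => wk k ξ * ‖f ξ‖ₑ) η
    simp_rw [this]
    have hmg : Measurable fun ξ : E3 => wk k ξ * ‖g ξ‖ₑ := (wk_meas k).mul hg.1.enorm
    rw [lintegral_const_mul _ hmg]
    exact ENNReal.mul_lt_top (hf.2 k) (hg.2 k)
  · apply Measurable.aemeasurable
    have h1 : Measurable fun p : E3 × E3 => p.1 - p.2 := measurable_fst.sub measurable_snd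
    exact (((wk_meas k).comp h1).mul (hf.1.comp h1).enorm).mul
      (((wk_meas k).comp measurable_snd).mul (hg.1.comp measurable_snd).enorm)

lemma cq_ae {f g : E3 → ℂ} (hf : Mom f) (hg : Mom g) :
    ∀ᵐ ξ : E3, Integrable (fun η => f (ξ - η) * g η) := by
  have := hg.integrable.ae_convolution_exists (ContinuousLinearMap.mul ℂ ℂ) hf.integrable
  filter_upwards [this] with ξ hξ
  have h2 : Integrable (fun t => g t * f (ξ - t)) := hξ
  exact h2.congr (Eventually.of_forall fun t => mul_comm _ _)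

lemma cq_four {f g : E3 → ℂ} (hf : Mom f) (hg : Mom g) (x : E3) :
    𝓕⁻ (cq f g) x = 𝓕⁻ f x * 𝓕⁻ g x := by
  have e : cq f g = (g ⋆[ContinuousLinearMap.mul ℂ ℂ, volume] f) := by
    funext ξ
    unfold cq convolution
    congr 1
    funext t
    simp [mul_comm]
  rw [e, Real.fourierInv_eq_fourier_neg, Real.fourier_mul_convolution_eq hg.integrable hf.integrable,
    Real.fourierInv_eq_fourier_neg, Real.fourierInv_eq_fourier_neg, mul_comm]


lemma Mom.coord {f : E3 → ℂ} (h : Mom f) (j : Fin 3) : Mom (fun ξ => (ξ j : ℂ) * f ξ) := by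
  have hj : Measurable fun ξ : E3 => ((ξ j : ℝ) : ℂ) := by fun_prop
  refine ⟨hj.mul h.1, fun k => ?_⟩
  refine lt_of_le_of_lt (lintegral_mono fun ξ => ?_) (h.2 (k + 1))
  simp only
  rw [enorm_mul, ← mul_assoc]
  apply mul_le_mul_left
  have e1 : ‖((ξ j : ℝ) : ℂ)‖ₑ = ENNReal.ofReal ‖ξ j‖ := by
    rw [← ofReal_norm, Complex.norm_real]
  rw [e1]
  unfold wk
  rw [← ENNReal.ofReal_mul (by positivity)]
  apply ENNReal.ofReal_le_ofReal
  rw [pow_succ]
  apply mul_le_mul_of_nonneg_left _ (by positivity)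
  have := PiLp.norm_apply_le ξ j
  linarith

lemma Mom.const {f : E3 → ℂ} (h : Mom f) (c : ℂ) : Integrable (fun ξ => c * f ξ) :=
  h.integrable.const_mul c

lemma fi_int {f : E3 → ℂ} (hf : Integrable f) (x : E3) :
    Integrable (fun v : E3 => Real.fourierChar (inner ℝ v x) • f v) := by
  have := (Real.fourierIntegral_convergent_iff (-x)).2 hf
  simpa using this

lemma fi_add {f g : E3 → ℂ} (hf : Integrable f) (hg : Integrable g) (x : E3) :
    𝓕⁻ (fun ξ => f ξ + g ξ) x = 𝓕⁻ f x + 𝓕⁻ g x := by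
  rw [Real.fourierInv_eq, Real.fourierInv_eq, Real.fourierInv_eq,
    ← integral_add (fi_int hf x) (fi_int hg x)]
  congr 1
  funext v
  rw [smul_add]

lemma fi_neg {f : E3 → ℂ} (x : E3) :
    𝓕⁻ (fun ξ => -f ξ) x = -𝓕⁻ f x := by
  rw [Real.fourierInv_eq, Real.fourierInv_eq, ← integral_neg]
  congr 1
  funext v
  rw [smul_neg]

lemma fi_congr {f g : E3 → ℂ} (h : f =ᵐ[volume] g) (x : E3) : 𝓕⁻ f x = 𝓕⁻ g x := by
  rw [Real.fourierInv_eq, Real.fourierInv_eq]
  apply integral_congr_ae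
  filter_upwards [h] with v hv
  rw [hv]

lemma mom_of_le {f : E3 → ℂ} {q : Fin 3 → Fin 3 → E3 → ℂ} (hf : Measurable f)
    (hq : ∀ j k, Mom (q j k)) (h : ∀ ξ, ‖f ξ‖ₑ ≤ ∑ j, ∑ k, ‖q j k ξ‖ₑ) : Mom f := by
  refine ⟨hf, fun n => ?_⟩
  have e : (∫⁻ ξ, ∑ j, ∑ k, wk n ξ * ‖q j k ξ‖ₑ) = ∑ j, ∑ k, ∫⁻ ξ, wk n ξ * ‖q j k ξ‖ₑ := by
    rw [lintegral_finsetSum]
    · apply Finset.sum_congr rfl
      intro j _
      rw [lintegral_finsetSum]
      intro k _
      exact (wk_meas n).mul (hq j k).1.enorm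
    · intro j _
      apply Finset.measurable_sum
      intro k _
      exact (wk_meas n).mul (hq j k).1.enorm
  refine lt_of_le_of_lt (lintegral_mono (g := fun ξ => ∑ j, ∑ k, wk n ξ * ‖q j k ξ‖ₑ) fun ξ => ?_) ?_
  · simp only
    calc wk n ξ * ‖f ξ‖ₑ ≤ wk n ξ * ∑ j, ∑ k, ‖q j k ξ‖ₑ := mul_le_mul_right (h ξ) _
      _ = _ := by simp only [Finset.mul_sum]
  · rw [e]
    exact ENNReal.sum_lt_top.2 fun j _ => ENNReal.sum_lt_top.2 fun k _ => (hq j k).2 n

/-- the pressure on the Fourier side -/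
noncomputable def ph (q : Fin 3 → Fin 3 → E3 → ℂ) (ξ : E3) : ℂ :=
  -((∑ j, ∑ k, (ξ j : ℂ) * (ξ k : ℂ) * q j k ξ) / ((‖ξ‖ ^ 2 : ℝ) : ℂ))

lemma ph_mom {q : Fin 3 → Fin 3 → E3 → ℂ} (hq : ∀ j k, Mom (q j k)) : Mom (ph q) := by
  have hj : ∀ j : Fin 3, Measurable fun ξ : E3 => ((ξ j : ℝ) : ℂ) := fun j => by fun_prop
  apply mom_of_le (q := q) _ hq
  · intro ξ
    have hr : ‖ph q ξ‖ ≤ ∑ j, ∑ k, ‖q j k ξ‖ := by
      unfold ph
      rw [norm_neg, norm_div]
      rcases eq_or_ne ξ 0 with h0 | h0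
      · subst h0
        simp
        positivity
      have hp : 0 < ‖ξ‖ ^ 2 := by positivity
      rw [Complex.norm_real, Real.norm_of_nonneg hp.le, div_le_iff₀ hp]
      calc ‖∑ j, ∑ k, (ξ j : ℂ) * (ξ k : ℂ) * q j k ξ‖
          ≤ ∑ j, ∑ k, ‖(ξ j : ℂ) * (ξ k : ℂ) * q j k ξ‖ :=
            (norm_sum_le _ _).trans (Finset.sum_le_sum fun j _ => norm_sum_le _ _)
        _ ≤ ∑ j, ∑ k, ‖q j k ξ‖ * ‖ξ‖ ^ 2 := by
            apply Finset.sum_le_sum
            intro j _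
            apply Finset.sum_le_sum
            intro k _
            rw [norm_mul, norm_mul, Complex.norm_real, Complex.norm_real]
            have h1 := PiLp.norm_apply_le ξ j
            have h2 := PiLp.norm_apply_le ξ k
            have h3 : ‖ξ j‖ * ‖ξ k‖ ≤ ‖ξ‖ ^ 2 := by
              rw [pow_two]
              exact mul_le_mul h1 h2 (norm_nonneg _) (norm_nonneg _)
            nlinarith [norm_nonneg (q j k ξ)]
        _ = _ := by simp only [Finset.sum_mul]
    have h2 : ‖ph q ξ‖ₑ = ENNReal.ofReal ‖ph q ξ‖ := (ofReal_norm _).symm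
    rw [h2]
    refine (ENNReal.ofReal_le_ofReal hr).trans (le_of_eq ?_)
    rw [ENNReal.ofReal_sum_of_nonneg (fun j _ => Finset.sum_nonneg fun k _ => norm_nonneg _)]
    apply Finset.sum_congr rfl
    intro j _
    rw [ENNReal.ofReal_sum_of_nonneg (fun k _ => norm_nonneg _)]
    apply Finset.sum_congr rfl
    intro k _
    exact ofReal_norm _
  · unfold ph
    apply Measurable.neg
    apply Measurable.div
    · apply Finset.measurable_sum
      intro j _
      apply Finset.measurable_sum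
      intro k _
      exact ((hj j).mul (hj k)).mul (hq j k).1
    · exact Complex.measurable_ofReal.comp (measurable_norm.pow_const 2)

/-- the components of the convolution integral -/
lemma w_comp (a : E3 → C3) (ξ : E3)
    (hi : ∀ j k : Fin 3, Integrable (fun η => a (ξ - η) j * a η k)) (k : Fin 3) :
    (∫ η, dt ξ (a (ξ - η)) • a η) k =
      ∑ j, (ξ j : ℂ) * cq (fun ξ => a ξ j) (fun ξ => a ξ k) ξ := by
  have hk : ∀ k : Fin 3, Integrable (fun η => (dt ξ (a (ξ - η)) • a η) k) := by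
    intro k
    have : (fun η => (dt ξ (a (ξ - η)) • a η) k) =
        fun η => ∑ j, (ξ j : ℂ) * (a (ξ - η) j * a η k) := by
      funext η
      simp only [dt, Pi.smul_apply, smul_eq_mul, Finset.sum_mul, mul_assoc]
    rw [this]
    exact integrable_finsetSum _ fun j _ => (hi j k).const_mul _
  rw [eval_integral hk k]
  have : (fun η => (dt ξ (a (ξ - η)) • a η) k) =
      fun η => ∑ j, (ξ j : ℂ) * (a (ξ - η) j * a η k) := by
    funext η
    simp only [dt, Pi.smul_apply, smul_eq_mul, Finset.sum_mul, mul_assoc]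
  rw [this, integral_finsetSum _ fun j _ => (hi j k).const_mul _]
  apply Finset.sum_congr rfl
  intro j _
  rw [integral_const_mul]
  rfl


lemma nl_eq (a : E3 → C3) (ξ : E3)
    (hξ : ∀ j k : Fin 3, Integrable (fun η => a (ξ - η) j * a η k)) (k : Fin 3) :
    nl a a ξ k = (-(2 * Real.pi * Complex.I * (ξ 0 : ℂ) * cq (fun ξ => a ξ 0) (fun ξ => a ξ k) ξ) +
        -(2 * Real.pi * Complex.I * (ξ 1 : ℂ) * cq (fun ξ => a ξ 1) (fun ξ => a ξ k) ξ)) +
        (-(2 * Real.pi * Complex.I * (ξ 2 : ℂ) * cq (fun ξ => a ξ 2) (fun ξ => a ξ k) ξ) +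
        -(2 * Real.pi * Complex.I * (ξ k : ℂ) *
          ph (fun j k => cq (fun ξ => a ξ j) (fun ξ => a ξ k)) ξ)) := by
  have hw := w_comp a ξ hξ
  have e0 : nl a a ξ k =
      -(2 * Real.pi * Complex.I) * (lp ξ (∫ η, dt ξ (a (ξ - η)) • a η) k) := by
    unfold nl
    rw [Pi.smul_apply, smul_eq_mul]
  have e1 : ∀ w : C3, lp ξ w k = w k - (ξ k : ℂ) * (∑ l, (ξ l : ℂ) * w l) / ((‖ξ‖ ^ 2 : ℝ) : ℂ) :=
    fun w => rfl
  rw [e0, e1]
  simp only [hw]
  unfold ph
  generalize ((‖ξ‖ ^ 2 : ℝ) : ℂ) = N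
  generalize hc : (fun j k : Fin 3 => cq (fun ξ => a ξ j) (fun ξ => a ξ k) ξ) = c
  have hc' : ∀ j k : Fin 3, cq (fun ξ => a ξ j) (fun ξ => a ξ k) ξ = c j k := by
    intro j k
    rw [← hc]
  simp only [hc', Fin.sum_univ_three]
  ring

lemma nl_ae (a : E3 → C3) (hA : ∀ j : Fin 3, Mom (fun ξ => a ξ j)) (k : Fin 3) :
    (fun ξ => nl a a ξ k) =ᵐ[volume] fun ξ =>
      (-(2 * Real.pi * Complex.I * (ξ 0 : ℂ) * cq (fun ξ => a ξ 0) (fun ξ => a ξ k) ξ) +
        -(2 * Real.pi * Complex.I * (ξ 1 : ℂ) * cq (fun ξ => a ξ 1) (fun ξ => a ξ k) ξ)) +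
        (-(2 * Real.pi * Complex.I * (ξ 2 : ℂ) * cq (fun ξ => a ξ 2) (fun ξ => a ξ k) ξ) +
        -(2 * Real.pi * Complex.I * (ξ k : ℂ) *
          ph (fun j k => cq (fun ξ => a ξ j) (fun ξ => a ξ k)) ξ)) := by
  have hall : ∀ᵐ ξ : E3, ∀ j k : Fin 3, Integrable (fun η => a (ξ - η) j * a η k) := by
    rw [ae_all_iff]
    intro j
    rw [ae_all_iff]
    intro k
    have := cq_ae (hA j) (hA k)
    exact this
  exact hall.mono fun ξ hξ => nl_eq a ξ hξ k

/-- FI6 -/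
theorem t_FI6 : S_FI1 → S_FI3 → S_FI6 := by
  intro hF1 hF3 a ha hm hH hD
  obtain ⟨h1, -, h3, h4⟩ := hF3 a ha hm
  have hA : ∀ j : Fin 3, Mom (fun ξ => a ξ j) := by
    intro j
    refine ⟨(measurable_pi_apply j).comp ha, fun k => ?_⟩
    refine lt_of_le_of_lt (lintegral_mono fun ξ => ?_) (hm k)
    apply mul_le_mul_right
    exact ENNReal.coe_le_coe.2 (nnnorm_le_pi_nnnorm (a ξ) j)
  set q : Fin 3 → Fin 3 → E3 → ℂ := fun j k => cq (fun ξ => a ξ j) (fun ξ => a ξ k) with hq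
  have hqM : ∀ j k, Mom (q j k) := fun j k => cq_mom (hA j) (hA k)
  have hphM : Mom (ph q) := ph_mom hqM
  have hcd := hF1.1
  -- real components
  have hu : ∀ (j : Fin 3) (x : E3), 𝓕⁻ (fun ξ => a ξ j) x = ((phy a x j : ℝ) : ℂ) :=
    fun j x => (h1 hH x j).symm
  have hud : ∀ j : Fin 3, Differentiable ℝ (fun y => phy a y j) := by
    intro j
    have hdf : Differentiable ℝ (phy a) := h4.differentiable (by simp)
    exact (EuclideanSpace.proj (𝕜 := ℝ) j).differentiable.comp hdf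
  have hQ : ∀ j k, 𝓕⁻ (q j k) = fun x => ((phy a x j * phy a x k : ℝ) : ℂ) := by
    intro j k
    funext x
    rw [hq, cq_four (hA j) (hA k), hu, hu]
    push_cast
    rfl
  have hdQ : ∀ (j k : Fin 3) (x : E3), 𝓕⁻ (fun ξ => 2 * Real.pi * Complex.I * (ξ j : ℂ) * q j k ξ) x =
      ((phy a x j * pd j (fun y => phy a y k) x + pd j (fun y => phy a y j) x * phy a x k : ℝ) : ℂ) := by
    intro j k x
    rw [← (hcd (q j k) (hqM j k).1 (hqM j k).2).2 j x, hQ]
    have hr : HasFDerivAt (fun y => phy a y j * phy a y k)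
        (phy a x j • fderiv ℝ (fun y => phy a y k) x + phy a x k • fderiv ℝ (fun y => phy a y j) x) x :=
      ((hud j x).hasFDerivAt).mul ((hud k x).hasFDerivAt)
    have hc : HasFDerivAt (fun y => ((phy a y j * phy a y k : ℝ) : ℂ))
        (Complex.ofRealCLM.comp (phy a x j • fderiv ℝ (fun y => phy a y k) x +
          phy a x k • fderiv ℝ (fun y => phy a y j) x)) x :=
      Complex.ofRealCLM.hasFDerivAt.comp x hr
    rw [hc.fderiv]
    simp only [pd, ContinuousLinearMap.comp_apply, add_apply,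
      smul_apply, smul_eq_mul, Complex.ofRealCLM_apply]
    push_cast
    ring
  refine ⟨fun x => (𝓕⁻ (ph q) x).re, ?_, ?_⟩
  · exact Complex.reCLM.contDiff.comp (hcd (ph q) hphM.1 hphM.2).1
  intro x k
  -- derivative of the pressure
  have hP : pd k (fun x => (𝓕⁻ (ph q) x).re) x =
      (𝓕⁻ (fun ξ => 2 * Real.pi * Complex.I * (ξ k : ℂ) * ph q ξ) x).re := by
    rw [← (hcd (ph q) hphM.1 hphM.2).2 k x]
    have hdiff : DifferentiableAt ℝ (𝓕⁻ (ph q)) x :=
      ((hcd (ph q) hphM.1 hphM.2).1.differentiable (by simp)) x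
    have hc : HasFDerivAt (fun y => (𝓕⁻ (ph q) y).re)
        (Complex.reCLM.comp (fderiv ℝ (𝓕⁻ (ph q)) x)) x :=
      Complex.reCLM.hasFDerivAt.comp x hdiff.hasFDerivAt
    unfold pd
    rw [hc.fderiv]
    rfl
  have hae := nl_ae a hA k
  rw [fi_congr hae x, hP]
  have i0 : ∀ j : Fin 3, Integrable (fun ξ : E3 => -(2 * Real.pi * Complex.I * (ξ j : ℂ) * q j k ξ)) := by
    intro j
    have := (((hqM j k).coord j).const (2 * Real.pi * Complex.I)).neg
    refine this.congr (Eventually.of_forall fun ξ => ?_)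
    simp only [Pi.neg_apply]
    ring
  have ip : Integrable (fun ξ : E3 => -(2 * Real.pi * Complex.I * (ξ k : ℂ) * ph q ξ)) := by
    have := ((hphM.coord k).const (2 * Real.pi * Complex.I)).neg
    refine this.congr (Eventually.of_forall fun ξ => ?_)
    simp only [Pi.neg_apply]
    ring
  have i01 : Integrable (fun ξ : E3 => -(2 * Real.pi * Complex.I * (ξ 0 : ℂ) * q 0 k ξ) +
      -(2 * Real.pi * Complex.I * (ξ 1 : ℂ) * q 1 k ξ)) := (i0 0).add (i0 1)
  have i2p : Integrable (fun ξ : E3 => -(2 * Real.pi * Complex.I * (ξ 2 : ℂ) * q 2 k ξ) +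
      -(2 * Real.pi * Complex.I * (ξ k : ℂ) * ph q ξ)) := (i0 2).add ip
  have hsum := (fi_add i01 i2p x).trans (congrArg₂ (· + ·) (fi_add (i0 0) (i0 1) x)
    (fi_add (i0 2) ip x))
  rw [fi_neg, fi_neg, fi_neg, fi_neg, hdQ 0 k, hdQ 1 k, hdQ 2 k] at hsum
  refine (congrArg Complex.re hsum).trans ?_
  have hdiv := h3 hH hD x
  rw [Fin.sum_univ_three] at hdiv
  rw [Fin.sum_univ_three]
  simp only [Complex.add_re, Complex.neg_re, Complex.ofReal_re]
  have : pd 2 (fun y => phy a y 2) x = -(pd 0 (fun y => phy a y 0) x) - pd 1 (fun y => phy a y 1) x := by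
    linarith
  rw [this]
  ring

end Run7.h237.AX
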