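import Pool.Agent.Run7.h148.AX.Stm4

/-!
# Piece JCN of project AX (helper148, page MP_09540e_an)
-/

set_option autoImplicit false

open MeasureTheory Set Filter Topology
open scoped ENNReal ContDiff FourierTransform

namespace Run7.h237.AX

open Pool.Agent.Run7.h148.AX

lemma ht_nonneg (κ : ℝ) (ξ : E3) (t : ℝ) : 0 ≤ ht κ ξ t := (Real.exp_pos _).le

lemma ht_le_one {κ : ℝ} (hκ : 0 < κ) (ξ : E3) (t : ℝ) : ht κ ξ (max t 0) ≤ 1 := by
  unfold ht
  rw [Real.exp_le_one_iff]
  have : 0 ≤ κ * ‖ξ‖ ^ 2 * max t 0 := by positivity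
  linarith

lemma cont_ht (κ : ℝ) : Continuous fun p : ℝ × E3 => ht κ p.2 (max p.1 0) := by
  unfold ht
  fun_prop

lemma nm_hev (κ : ℝ) (w : E3 → C3) (t : ℝ) (ξ : E3) :
    nm (hev κ w) t ξ = ENNReal.ofReal (ht κ ξ (max t 0)) * ‖w ξ‖ₑ := by
  unfold nm hev
  rw [enorm_smul, Real.enorm_of_nonneg (ht_nonneg _ _ _)]

lemma nm_hev' (κ : ℝ) (w : E3 → C3) (t : ℝ) (ξ : E3) :
    nm (hev κ w) t ξ = ENNReal.ofReal (ht κ ξ (max t 0) * ‖w ξ‖) := by
  rw [nm_hev, ENNReal.ofReal_mul (ht_nonneg _ _ _), ofReal_norm]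

lemma nm_hev_le {κ : ℝ} (hκ : 0 < κ) (w : E3 → C3) (t : ℝ) (ξ : E3) :
    nm (hev κ w) t ξ ≤ ‖w ξ‖ₑ := by
  rw [nm_hev]
  calc ENNReal.ofReal (ht κ ξ (max t 0)) * ‖w ξ‖ₑ ≤ 1 * ‖w ξ‖ₑ := by
        gcongr
        rw [← ENNReal.ofReal_one]
        exact ENNReal.ofReal_le_ofReal (ht_le_one hκ ξ t)
    _ = _ := one_mul _

lemma meas_hev (κ : ℝ) (w : E3 → C3) (hw : Measurable w) :
    Measurable (Function.uncurry (hev κ w)) := by
  have h1 : Measurable fun p : ℝ × E3 => ht κ p.2 (max p.1 0) := (cont_ht κ).measurable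
  exact h1.smul (hw.comp measurable_snd)

/-- time integral of the heat factor -/
lemma int_ht {κ T : ℝ} (hκ : 0 < κ) (hT : 0 ≤ T) {ξ : E3} (hξ : ξ ≠ 0) :
    (∫⁻ t in Ioc 0 T, ENNReal.ofReal (ht κ ξ (max t 0))) ≤
      ENNReal.ofReal (1 / (κ * ‖ξ‖ ^ 2)) := by
  set c : ℝ := κ * ‖ξ‖ ^ 2 with hc
  have hcpos : 0 < c := by
    have := norm_pos_iff.2 hξ
    positivity
  have h1 : ∀ t : ℝ, HasDerivAt (fun t => -(Real.exp (-(c * t)) / c)) (Real.exp (-(c * t))) t := by
    intro t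
    have h2 : HasDerivAt (fun t : ℝ => -(c * t)) (-c) t := by
      simpa using ((hasDerivAt_id' t).const_mul c).fun_neg
    have h3 := ((h2.exp).div_const c).fun_neg
    have h4 : -(Real.exp (-(c * t)) * -c / c) = Real.exp (-(c * t)) := by
      field_simp
    rw [h4] at h3
    exact h3
  have h4 : ∫ t in (0 : ℝ)..T, Real.exp (-(c * t)) = (1 - Real.exp (-(c * T))) / c := by
    rw [intervalIntegral.integral_eq_sub_of_hasDerivAt (fun t _ => h1 t)
      (by apply Continuous.intervalIntegrable; fun_prop)]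
    simp
    ring
  have h5 : (∫⁻ t in Ioc 0 T, ENNReal.ofReal (ht κ ξ (max t 0))) =
      ∫⁻ t in Ioc 0 T, ENNReal.ofReal (Real.exp (-(c * t))) := by
    apply setLIntegral_congr_fun measurableSet_Ioc
    intro t ht'
    simp only [ht, max_eq_left ht'.1.le, hc]
  have hint : IntegrableOn (fun t => Real.exp (-(c * t))) (Ioc 0 T) := by
    have : Continuous fun t => Real.exp (-(c * t)) := by fun_prop
    exact (this.integrableOn_Icc).mono_set Ioc_subset_Icc_self
  rw [h5, ← ofReal_integral_eq_lintegral_ofReal hint (Eventually.of_forall fun t =>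
    (Real.exp_pos _).le), ← intervalIntegral.integral_of_le hT, h4]
  apply ENNReal.ofReal_le_ofReal
  gcongr
  linarith [Real.exp_pos (-(c * T))]

theorem t_JCN : S_CSX → S_JCN := by
  intro hCS κ δ w hκ hδ hw hiw
  obtain ⟨hwm, hwk⟩ := hw
  have hmeas := meas_hev κ w hwm
  have hle := nm_hev_le hκ w
  have hiw' : ∀ t, (∫⁻ ξ, iw ξ * nm (hev κ w) t ξ) ≤ ENNReal.ofReal δ := by
    intro t
    refine le_trans (lintegral_mono fun ξ => ?_) hiw
    gcongr
    exact hle t ξ
  have hnm : ∀ t, Measurable (nm (hev κ w) t) := fun t =>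
    (hmeas.comp measurable_prodMk_left).enorm
  -- integrability of `w`
  have hwi : Integrable w := by
    refine ⟨hwm.aestronglyMeasurable, ?_⟩
    obtain ⟨M, hM, -⟩ := hwk 0
    refine lt_of_le_of_lt ?_ (lt_of_le_of_lt hM ENNReal.coe_lt_top)
    refine lintegral_mono fun ξ => ?_
    simp [wk]
  have hhi : ∀ t, Integrable fun ξ => ht κ ξ (max t 0) * ‖w ξ‖ := by
    intro t
    refine hwi.norm.mono' ?_ (Eventually.of_forall fun ξ => ?_)
    · have h1 : Measurable fun ξ : E3 => ht κ ξ (max t 0) := by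
        have := (cont_ht κ).measurable.comp (measurable_prodMk_left (x := t))
        exact this
      exact (h1.mul hwm.norm).aestronglyMeasurable
    · rw [norm_mul, norm_norm, Real.norm_of_nonneg (ht_nonneg _ _ _)]
      calc ht κ ξ (max t 0) * ‖w ξ‖ ≤ 1 * ‖w ξ‖ := by
            gcongr
            exact ht_le_one hκ ξ t
        _ = _ := one_mul _
  set J : ℝ → ℝ := fun t => ∫ ξ, ht κ ξ (max t 0) * ‖w ξ‖ with hJ
  have hJ0 : ∀ t, 0 ≤ J t := fun t => integral_nonneg fun ξ =>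
    mul_nonneg (ht_nonneg _ _ _) (norm_nonneg _)
  have hJe : ∀ t, (∫⁻ ξ, nm (hev κ w) t ξ) = ENNReal.ofReal (J t) := by
    intro t
    rw [hJ, ofReal_integral_eq_lintegral_ofReal (hhi t) (Eventually.of_forall fun ξ =>
      mul_nonneg (ht_nonneg _ _ _) (norm_nonneg _))]
    exact lintegral_congr fun ξ => nm_hev' κ w t ξ
  have hJc : Continuous J := by
    refine continuous_of_dominated (bound := fun ξ => ‖w ξ‖) (fun t => (hhi t).1)
      (fun t => Eventually.of_forall fun ξ => ?_) hwi.norm (Eventually.of_forall fun ξ => ?_)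
    · rw [norm_mul, norm_norm, Real.norm_of_nonneg (ht_nonneg _ _ _)]
      calc ht κ ξ (max t 0) * ‖w ξ‖ ≤ 1 * ‖w ξ‖ := by
            gcongr
            exact ht_le_one hκ ξ t
        _ = _ := one_mul _
    · unfold ht
      fun_prop
  refine ⟨⟨hmeas, hmeas.enorm, ?_⟩, hiw', J, hJc, hJ0, fun t => (hJe t).le, ?_⟩
  · intro k T
    obtain ⟨M, hM1, hM2⟩ := hwk k
    refine ⟨M, fun t _ => ⟨?_, fun ξ => ?_⟩⟩
    · refine le_trans (lintegral_mono fun ξ => ?_) hM1
      gcongr
      exact hle t ξ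
    · refine le_trans ?_ (hM2 ξ)
      gcongr
      exact hle t ξ
  · intro T hT
    have h1 : ∀ t, ENNReal.ofReal (J t ^ 2) ≤
        ENNReal.ofReal δ * ∫⁻ ξ, nw ξ * nm (hev κ w) t ξ := by
      intro t
      rw [ENNReal.ofReal_pow (hJ0 t), ← hJe t]
      refine le_trans (hCS _ (hnm t)) ?_
      gcongr
      exact hiw' t
    have hjm : Measurable fun p : ℝ × E3 => nw p.2 * nm (hev κ w) p.1 p.2 := by
      have h2 : Measurable fun p : ℝ × E3 => nw p.2 := by
        unfold nw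
        fun_prop
      exact h2.mul hmeas.enorm
    have h2 : (∫⁻ t in Ioc 0 T, ∫⁻ ξ, nw ξ * nm (hev κ w) t ξ) ≤
        ENNReal.ofReal (1 / κ) * ENNReal.ofReal δ := by
      rw [lintegral_lintegral_swap hjm.aemeasurable]
      calc (∫⁻ ξ, ∫⁻ t in Ioc 0 T, nw ξ * nm (hev κ w) t ξ)
          ≤ ∫⁻ ξ, ENNReal.ofReal (1 / κ) * (iw ξ * ‖w ξ‖ₑ) := by
            refine lintegral_mono fun ξ => ?_
            by_cases hξ : ξ = 0
            · subst hξ
              simp [nw]
            have h3 : ∀ t, nw ξ * nm (hev κ w) t ξ =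
                (nw ξ * ‖w ξ‖ₑ) * ENNReal.ofReal (ht κ ξ (max t 0)) := by
              intro t
              rw [nm_hev]
              ring
            simp only [h3]
            rw [lintegral_const_mul' _ _ (by
              unfold nw
              exact ENNReal.mul_ne_top ENNReal.ofReal_ne_top enorm_ne_top)]
            calc (nw ξ * ‖w ξ‖ₑ) * ∫⁻ t in Ioc 0 T, ENNReal.ofReal (ht κ ξ (max t 0))
                ≤ (nw ξ * ‖w ξ‖ₑ) * ENNReal.ofReal (1 / (κ * ‖ξ‖ ^ 2)) := by
                  gcongr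
                  exact int_ht hκ hT hξ
              _ = (nw ξ * ENNReal.ofReal (1 / (κ * ‖ξ‖ ^ 2))) * ‖w ξ‖ₑ := by ring
              _ = (ENNReal.ofReal (1 / κ) * iw ξ) * ‖w ξ‖ₑ := by
                  congr 1
                  unfold nw iw
                  rw [← ENNReal.ofReal_mul (norm_nonneg _), ← ENNReal.ofReal_mul (by positivity)]
                  congr 1
                  have := norm_ne_zero_iff.2 hξ
                  field_simp
              _ = _ := by ring
        _ = ENNReal.ofReal (1 / κ) * ∫⁻ ξ, iw ξ * ‖w ξ‖ₑ :=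
            lintegral_const_mul' _ _ ENNReal.ofReal_ne_top
        _ ≤ _ := by gcongr
    have h3 : (∫⁻ t in Ioc 0 T, ENNReal.ofReal (J t ^ 2)) ≤ ENNReal.ofReal (δ ^ 2 / κ) := by
      calc (∫⁻ t in Ioc 0 T, ENNReal.ofReal (J t ^ 2))
          ≤ ∫⁻ t in Ioc 0 T, ENNReal.ofReal δ * ∫⁻ ξ, nw ξ * nm (hev κ w) t ξ :=
            lintegral_mono fun t => h1 t
        _ = ENNReal.ofReal δ * ∫⁻ t in Ioc 0 T, ∫⁻ ξ, nw ξ * nm (hev κ w) t ξ :=
            lintegral_const_mul' _ _ ENNReal.ofReal_ne_top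
        _ ≤ ENNReal.ofReal δ * (ENNReal.ofReal (1 / κ) * ENNReal.ofReal δ) := by gcongr
        _ = ENNReal.ofReal (δ ^ 2 / κ) := by
            rw [← ENNReal.ofReal_mul (by positivity), ← ENNReal.ofReal_mul hδ]
            congr 1
            ring
    rw [intervalIntegral.integral_of_le hT, integral_eq_lintegral_of_nonneg_ae
      (Eventually.of_forall fun t => sq_nonneg _) (hJc.pow 2).aestronglyMeasurable]
    refine le_trans (ENNReal.toReal_mono ENNReal.ofReal_ne_top h3) ?_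
    rw [ENNReal.toReal_ofReal (by positivity)]

end Run7.h237.AX
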