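import Pool.Agent.Run7.h148.AX.Stm4

/-!
# Piece TMN of project AX (helper148, page MP_09540e_an)
-/

set_option autoImplicit false

open MeasureTheory Set Filter Topology
open scoped ENNReal ContDiff FourierTransform

namespace Run7.h237.AX

open Pool.Agent.Run7.h148.AX

lemma wk_nw (k : ℕ) (ξ : E3) : wk k ξ * nw ξ ≤ wk (k + 1) ξ := by
  unfold wk nw
  rw [← ENNReal.ofReal_mul (by positivity)]
  apply ENNReal.ofReal_le_ofReal
  rw [pow_succ]
  apply mul_le_mul_of_nonneg_left _ (by positivity)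
  linarith

lemma one_le_wk (k : ℕ) (ξ : E3) : 1 ≤ wk k ξ := by
  unfold wk
  rw [← ENNReal.ofReal_one]
  apply ENNReal.ofReal_le_ofReal
  apply one_le_pow₀
  linarith [norm_nonneg ξ]

set_option maxHeartbeats 2000000 in
theorem t_TMN : S_NLB → S_NLM → S_CVM → S_WK1 → S_TMN := by
  intro hB hM _ hW a b ha hb
  have hm : Measurable fun p : ℝ × E3 => nl (a p.1) (b p.1) p.2 := hM a b ha.1 hb.1
  refine ⟨hm, hm.enorm, ?_⟩
  intro k T
  obtain ⟨Ma, hMa⟩ := ha.2.2 (k + 1) T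
  obtain ⟨Mb, hMb⟩ := hb.2.2 (k + 1) T
  refine ⟨40 * (2 ^ (k + 1) * (Ma * Mb + Ma * Mb)), fun t ht => ?_⟩
  obtain ⟨a1, a2⟩ := hMa t ht
  obtain ⟨b1, b2⟩ := hMb t ht
  have hmA : Measurable (nm a t) := ha.2.1.comp measurable_prodMk_left
  have hmB : Measurable (nm b t) := hb.2.1.comp measurable_prodMk_left
  have a0 : (∫⁻ ξ, nm a t ξ) ≤ Ma := by
    refine le_trans (lintegral_mono fun ξ => ?_) a1
    calc nm a t ξ = 1 * nm a t ξ := (one_mul _).symm
      _ ≤ _ := by gcongr; exact one_le_wk _ _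
  have b0 : (∫⁻ ξ, nm b t ξ) ≤ Mb := by
    refine le_trans (lintegral_mono fun ξ => ?_) b1
    calc nm b t ξ = 1 * nm b t ξ := (one_mul _).symm
      _ ≤ _ := by gcongr; exact one_le_wk _ _
  obtain ⟨w1, w2, -⟩ := hW (nm a t) (nm b t) hmA hmB
  have hpt : ∀ ξ, wk k ξ * nm (fun t ξ => nl (a t) (b t) ξ) t ξ ≤
      40 * (wk (k + 1) ξ * cv (nm a t) (nm b t) ξ) := by
    intro ξ
    calc wk k ξ * nm (fun t ξ => nl (a t) (b t) ξ) t ξ
        ≤ wk k ξ * (40 * nw ξ * cv (nm a t) (nm b t) ξ) := by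
          gcongr
          exact hB (a t) (b t) ξ
      _ = 40 * ((wk k ξ * nw ξ) * cv (nm a t) (nm b t) ξ) := by ring
      _ ≤ _ := by gcongr; exact wk_nw k ξ
  have hM40 : ((40 * (2 ^ (k + 1) * (Ma * Mb + Ma * Mb)) : NNReal) : ℝ≥0∞) =
      40 * (2 ^ (k + 1) * ((Ma : ℝ≥0∞) * Mb + Ma * Mb)) := by
    push_cast
    ring
  rw [hM40]
  constructor
  · calc (∫⁻ ξ, wk k ξ * nm (fun t ξ => nl (a t) (b t) ξ) t ξ)
        ≤ ∫⁻ ξ, 40 * (wk (k + 1) ξ * cv (nm a t) (nm b t) ξ) := lintegral_mono hpt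
      _ = 40 * ∫⁻ ξ, wk (k + 1) ξ * cv (nm a t) (nm b t) ξ :=
          lintegral_const_mul' _ _ (by norm_num)
      _ ≤ _ := by
          gcongr
          refine le_trans (w1 (k + 1)) ?_
          gcongr
  · intro ξ
    refine le_trans (hpt ξ) ?_
    refine mul_le_mul_right (le_trans (w2 (k + 1) Ma Mb a2 b2 ξ) ?_) _
    gcongr

end Run7.h237.AX
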